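import Pool.Agent.Helper58.PB.StA

/-!
# Project PB, module ONX: few bad triples at one height
-/

set_option autoImplicit false

namespace Pool.Agent.Helper43.PB

open Finset ArithmeticFunction
open Pool.Agent.Helper58.PB
open Pool.Agent.Helper48.BK (ex th Sx Apx rr win AdN Admissible Solv Cl thd)
open Pool.Agent.Helper23.GK (cR)
open Pool.Agent.Helper23.MV (PCh PS ZF ZS mwt OKb ta Sc mm)

private lemma T3swap_ONX (f g k : ℕ → ℝ) (X Y Z : ℕ) (u v w D : ℤ) :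
    T3 f g k X Y Z u v w D = T3 f k g X Z Y u w v D := by
  unfold T3
  refine Finset.sum_congr rfl (fun n _ => ?_)
  rw [Finset.sum_comm]
  refine Finset.sum_congr rfl (fun l _ => Finset.sum_congr rfl (fun m _ => ?_))
  have h1 : (u * (n : ℤ) + v * m + w * l = D) ↔ (u * (n : ℤ) + w * l + v * m = D) := by
    constructor <;> intro h <;> linear_combination h
  by_cases h2 : u * (n : ℤ) + w * l + v * m = D
  · rw [if_pos (h1.2 h2), if_pos h2]; ring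
  · rw [if_neg (fun h => h2 (h1.1 h)), if_neg h2]

private lemma T3zero_ONX (p1 q1 p2 q2 p3 q3 h a b c X Y Z : ℕ) (u v w D : ℤ)
    (hno : ∀ n m l : ℕ, n.Prime → m.Prime → l.Prime → u * n + v * m + w * l = D →
      a * n ≤ q1 * h → b * m ≤ q2 * h → c * l ≤ q3 * h → False) :
    T3 (win th p1 q1 h a) (win th p2 q2 h b) (win th p3 q3 h c) X Y Z u v w D = 0 := by
  unfold T3
  refine Finset.sum_eq_zero fun n _ => Finset.sum_eq_zero fun k _ => Finset.sum_eq_zero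
    fun l _ => ?_
  split_ifs with he
  · by_contra hne
    have h1 : win th p1 q1 h a n ≠ 0 := fun h0 => hne (by rw [h0]; ring)
    have h2 : win th p2 q2 h b k ≠ 0 := fun h0 => hne (by rw [h0]; ring)
    have h3 : win th p3 q3 h c l ≠ 0 := fun h0 => hne (by rw [h0]; ring)
    have g1 : a * n ≤ q1 * h ∧ n.Prime := by
      unfold win at h1
      split_ifs at h1 with c1
      · refine ⟨c1.2, ?_⟩
        by_contra hp
        apply h1
        unfold th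
        rw [if_neg hp]
      · exact absurd rfl h1
    have g2 : b * k ≤ q2 * h ∧ k.Prime := by
      unfold win at h2
      split_ifs at h2 with c1
      · refine ⟨c1.2, ?_⟩
        by_contra hp
        apply h2
        unfold th
        rw [if_neg hp]
      · exact absurd rfl h2
    have g3 : c * l ≤ q3 * h ∧ l.Prime := by
      unfold win at h3
      split_ifs at h3 with c1
      · refine ⟨c1.2, ?_⟩
        by_contra hp
        apply h3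
        unfold th
        rw [if_neg hp]
      · exact absurd rfl h3
    exact hno n k l g1.2 g2.2 g3.2 he g1.1 g2.1 g3.1
  · rfl

private lemma memPS_ONX {P : ℝ} {c : PCh} (h : c ∈ PS P) : (c.r : ℝ) ≤ P := by
  unfold PS at h
  split_ifs at h with hf
  · simpa using h
  · simp at h

private lemma Gr_bd_ONX (P B : ℝ) (Q L n : ℕ) (hw : ∀ c ∈ PS P, ‖wt Q c n‖ ≤ B) (hB : 0 ≤ B)
    (hAv : ∑ c ∈ PS P, ‖Av c L n‖ ≤ 3) : |Gr P Q L n| ≤ 3 * B := by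
  unfold Gr Gc
  refine (Complex.abs_re_le_norm _).trans ?_
  refine (norm_sum_le _ _).trans ?_
  calc ∑ c ∈ PS P, ‖wt Q c n * Av c L n‖ ≤ ∑ c ∈ PS P, B * ‖Av c L n‖ := by
        refine Finset.sum_le_sum fun c hc => ?_
        rw [norm_mul]
        exact mul_le_mul_of_nonneg_right (hw c hc) (norm_nonneg _)
    _ = B * ∑ c ∈ PS P, ‖Av c L n‖ := by rw [Finset.mul_sum]
    _ ≤ B * 3 := by gcongr
    _ = 3 * B := by ring

private lemma th_bd_ONX (n : ℕ) (W : ℕ) (hn : n ≤ W) (hW : 1 ≤ W) : |th n| ≤ Real.log W := by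
  have hW0 : 0 ≤ Real.log W := Real.log_nonneg (by exact_mod_cast hW)
  unfold th
  split_ifs with hp
  · rw [abs_of_nonneg (Real.log_nonneg (by exact_mod_cast hp.one_lt.le))]
    exact Real.log_le_log (by exact_mod_cast hp.pos) (by exact_mod_cast hn)
  · simpa using hW0

private lemma cnt_ONX (S : Finset (ℕ × ℕ × ℕ)) (F : ℕ → ℕ → ℕ → ℝ) (lo N lo' m : ℕ) (c0 R : ℝ)
    (hS : S ⊆ (Icc lo N) ×ˢ (Icc lo N) ×ˢ (Icc lo' m))
    (hF : ∀ v ∈ S, c0 ≤ F v.1 v.2.1 v.2.2) (hnn : ∀ a b c, 0 ≤ F a b c)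
    (hsum : ∑ a ∈ Icc lo N, ∑ b ∈ Icc lo N, ∑ c ∈ Icc lo' m, F a b c ≤ R) :
    (S.card : ℝ) * c0 ≤ R := by
  rw [← nsmul_eq_mul, ← Finset.sum_const]
  calc ∑ _v ∈ S, c0 ≤ ∑ v ∈ S, F v.1 v.2.1 v.2.2 := Finset.sum_le_sum hF
    _ ≤ ∑ v ∈ (Icc lo N) ×ˢ (Icc lo N) ×ˢ (Icc lo' m), F v.1 v.2.1 v.2.2 :=
        Finset.sum_le_sum_of_subset_of_nonneg hS (fun _ _ _ => hnn _ _ _)
    _ = ∑ a ∈ Icc lo N, ∑ b ∈ Icc lo N, ∑ c ∈ Icc lo' m, F a b c := by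
        rw [Finset.sum_product]
        refine Finset.sum_congr rfl fun a _ => ?_
        rw [Finset.sum_product]
    _ ≤ R := hsum

private lemma num_ONX (s H A p w K T lg root : ℝ) (hH : 0 < H) (hA : 0 < A)
    (hw : 1000 ≤ w) (hwp : w ≤ p) (hK0 : 0 ≤ K) (hK : K ≤ p) (hT0 : 0 ≤ T) (hT : T ≤ p ^ 10)
    (hl0 : 0 ≤ lg) (hl : lg ≤ 3 * p) (hr0 : 0 ≤ root) (hr : root ≤ 2 * (p ^ 1666)⁻¹)
    (h : s * ((p ^ 300)⁻¹ * H ^ 2 / (2 * A)) ≤
      100000 * (p ^ 10) ^ 3 * K ^ 3 * T * lg ^ 2 * H ^ 2 * root) :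
    s ≤ A * w⁻¹ / 2 := by
  have hp : 1000 ≤ p := hw.trans hwp
  have hp0 : 0 < p := by linarith
  have hw0 : 0 < w := by linarith
  have h1 : 100000 * (p ^ 10) ^ 3 * K ^ 3 * T * lg ^ 2 * H ^ 2 * root ≤
      100000 * (p ^ 10) ^ 3 * p ^ 3 * p ^ 10 * (3 * p) ^ 2 * H ^ 2 * (2 * (p ^ 1666)⁻¹) := by
    gcongr
  have h2 : s * ((p ^ 300)⁻¹ * H ^ 2 / (2 * A)) ≤
      100000 * (p ^ 10) ^ 3 * p ^ 3 * p ^ 10 * (3 * p) ^ 2 * H ^ 2 * (2 * (p ^ 1666)⁻¹) :=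
    h.trans h1
  have h3 : s * ((p ^ 300)⁻¹ * H ^ 2 / (2 * A)) * (2 * A * p ^ 300 / H ^ 2) = s := by
    field_simp
  have h4 : (100000 * (p ^ 10) ^ 3 * p ^ 3 * p ^ 10 * (3 * p) ^ 2 * H ^ 2 *
      (2 * (p ^ 1666)⁻¹)) * (2 * A * p ^ 300 / H ^ 2) = 3600000 * A * p ^ 345 * (p ^ 1666)⁻¹ := by
    field_simp
    ring
  have h5 : s ≤ 3600000 * A * p ^ 345 * (p ^ 1666)⁻¹ := by
    rw [← h3, ← h4]
    exact mul_le_mul_of_nonneg_right h2 (by positivity)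
  have h6 : 3600000 * A * p ^ 345 * (p ^ 1666)⁻¹ ≤ A * p⁻¹ / 2 := by
    have h7 : (p ^ 1666)⁻¹ = (p ^ 345)⁻¹ * (p ^ 1320)⁻¹ * p⁻¹ := by
      rw [← mul_inv, ← mul_inv, ← pow_add, ← pow_succ]
    have h8 : (7200000 : ℝ) ≤ p ^ 1320 := by
      calc (7200000 : ℝ) ≤ 1000 ^ 3 := by norm_num
        _ ≤ p ^ 3 := by gcongr
        _ ≤ p ^ 1320 := pow_le_pow_right₀ (by linarith) (by norm_num)
    rw [h7]
    have h9 : 3600000 * A * p ^ 345 * ((p ^ 345)⁻¹ * (p ^ 1320)⁻¹ * p⁻¹) =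
        A * p⁻¹ / 2 * (7200000 * (p ^ 1320)⁻¹) := by
      field_simp
      ring
    rw [h9]
    have h10 : 7200000 * (p ^ 1320)⁻¹ ≤ 1 := by
      rw [← div_eq_mul_inv, div_le_one (by positivity)]
      exact h8
    calc A * p⁻¹ / 2 * (7200000 * (p ^ 1320)⁻¹) ≤ A * p⁻¹ / 2 * 1 := by gcongr
      _ = A * p⁻¹ / 2 := mul_one _
  refine h5.trans (h6.trans ?_)
  gcongr

private lemma auxA_ONX (m N H : ℝ) (hN : 1 ≤ N) (hm : 0 ≤ m) (h : N * m ≤ H) : m ≤ H := by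
  nlinarith

private lemma auxB_ONX (lo X H : ℝ) (h1 : 1 ≤ lo) (h2 : 0 ≤ X) (h3 : lo * X ≤ 29 * H)
    (h4 : 29 ≤ H) : X ≤ H ^ 2 := by
  have : X ≤ 29 * H := by nlinarith
  nlinarith

private lemma auxC_ONX (P Q : ℝ) (hP : 2 ≤ P) (h : P ^ 50 < Q + 1) : P ^ 49 ≤ Q := by
  have h2 : P ^ 50 = P * P ^ 49 := by ring
  have h3 : 1 ≤ P ^ 49 := one_le_pow₀ (by linarith)
  have h4 : 2 * P ^ 49 ≤ P * P ^ 49 := mul_le_mul_of_nonneg_right hP (by linarith)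
  linarith

private lemma auxD_ONX (K w p P : ℝ) (h1 : K ≤ w) (h2 : 1000 ≤ w) (h3 : w ≤ p) (h4 : p ^ 2 ≤ P) :
    29 * K ≤ P := by
  have : 29 * K ≤ p ^ 2 := by nlinarith
  linarith

open Classical in
theorem hOnx : StOnx := by
  intro hZfn hSup hMnt hEr2 hWtb hDvb ε hε hε1
  have hK0 : (2 : ℝ) ≤ 6 / ε := by
    rw [le_div_iff₀ hε]; linarith
  obtain ⟨δ₀, Z0, hδ₀, hδκ, hZ0, hZ⟩ := hZfn (6 / ε) (ε / 30000) hK0 (by positivity)
  obtain ⟨Ps, hPs2, hS⟩ := hSup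
  obtain ⟨Pm, hPm2, hM⟩ := hMnt
  obtain ⟨e, he⟩ : ∃ e : ℝ, e = ε * δ₀ / 60000 := ⟨_, rfl⟩
  have he0 : 0 < e := by rw [he]; positivity
  obtain ⟨CW, hCW1, hW⟩ := hWtb e he0
  obtain ⟨CD, hCD1, hD⟩ := hDvb e he0
  have hδ₀1 : δ₀ ≤ 1 / 30000 := hδκ.trans (by linarith)
  -- thresholds
  have ev1 : ∀ᶠ H : ℝ in Filter.atTop, CW + CD + Ps + Pm + 1000 ≤ H ^ e :=
    (tendsto_rpow_atTop he0).eventually_ge_atTop _
  have ev2 : ∀ᶠ H : ℝ in Filter.atTop, Z0 ≤ H ^ (ε / 3) :=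
    (tendsto_rpow_atTop (by positivity)).eventually_ge_atTop _
  have ev3 : ∀ᶠ H : ℝ in Filter.atTop, 2 * Real.log H ≤ H ^ e := by
    have h1 := (isLittleO_log_rpow_atTop he0).def (c := 1 / 2) (by norm_num)
    filter_upwards [h1, Filter.eventually_ge_atTop 1] with H hH h1H
    rw [Real.norm_eq_abs, Real.norm_eq_abs, abs_of_nonneg (Real.log_nonneg h1H),
      abs_of_nonneg (Real.rpow_nonneg (by linarith) _)] at hH
    linarith
  obtain ⟨h₀, hh₀⟩ := Filter.eventually_atTop.1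
    (((ev1.and ev2).and ev3).and (Filter.eventually_ge_atTop (29 : ℝ)))
  refine ⟨ε * δ₀ / 200000, h₀, by positivity, ?_⟩
  intro h N m lo lo' K hh hlo hloN hNK hlo' hlom hmK hNm hNmh hK
  obtain ⟨⟨⟨hw1, hZH⟩, hlogH⟩, h29⟩ := hh₀ h hh
  obtain ⟨H, hHdef⟩ : ∃ H : ℝ, H = (h : ℝ) := ⟨_, rfl⟩
  rw [← hHdef] at hw1 hZH hlogH h29 hNmh hK ⊢
  obtain ⟨w, hwdef⟩ : ∃ w : ℝ, w = H ^ e := ⟨_, rfl⟩
  rw [← hwdef] at hw1 hlogH
  have hH0 : 0 < H := by linarith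
  have hH1 : 1 ≤ H := by linarith
  have hw1000 : 1000 ≤ w := by linarith
  have hw0 : 0 < w := by linarith
  have hm1 : (1 : ℝ) ≤ m := by exact_mod_cast hlo'.trans hlom
  have hN1 : (1 : ℝ) ≤ N := by exact_mod_cast hlo.trans hloN
  have hlo1 : (1 : ℝ) ≤ lo := by exact_mod_cast hlo
  have hlo1' : (1 : ℝ) ≤ lo' := by exact_mod_cast hlo'
  have hloNR : (lo : ℝ) ≤ N := by exact_mod_cast hloN
  have hlomR : (lo' : ℝ) ≤ m := by exact_mod_cast hlom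
  have hNmR : (N : ℝ) ≤ m := by exact_mod_cast hNm
  have hNKR : (N : ℝ) ≤ lo * K := by exact_mod_cast hNK
  have hmKR : (m : ℝ) ≤ lo' * K := by exact_mod_cast hmK
  have hm0 : (0 : ℝ) < m := by linarith
  have hN0 : (0 : ℝ) < N := by linarith
  -- (1)
  have fact1 : (N : ℝ) * m * H ^ (ε / 3) ≤ H := by
    by_cases hm3 : (m : ℝ) ≤ H ^ (1 / 3 : ℝ)
    · have h13 : (0 : ℝ) ≤ H ^ (1 / 3 : ℝ) := by positivity
      calc (N : ℝ) * m * H ^ (ε / 3) ≤ H ^ (1 / 3 : ℝ) * H ^ (1 / 3 : ℝ) * H ^ (1 / 3 : ℝ) := by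
            gcongr
            · exact hNmR.trans hm3
        _ = H := by
            rw [← Real.rpow_add hH0, ← Real.rpow_add hH0]
            norm_num
    · push Not at hm3
      have h2 : H ^ (ε / 3) ≤ (m : ℝ) ^ ε := by
        calc H ^ (ε / 3) = (H ^ (1 / 3 : ℝ)) ^ ε := by
              rw [← Real.rpow_mul hH0.le]; congr 1; ring
          _ ≤ (m : ℝ) ^ ε := Real.rpow_le_rpow (by positivity) hm3.le hε.le
      calc (N : ℝ) * m * H ^ (ε / 3) ≤ (N : ℝ) * m * (m : ℝ) ^ ε := by gcongr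
        _ = (N : ℝ) * (m : ℝ) ^ (1 + ε) := by
            rw [Real.rpow_add hm0, Real.rpow_one]; ring
        _ ≤ H := hNmh
  have hHe1 : 1 ≤ H ^ (ε / 3) := Real.one_le_rpow hH1 (by positivity)
  have fact2 : (N : ℝ) * m ≤ H := by
    calc (N : ℝ) * m = (N : ℝ) * m * 1 := by ring
      _ ≤ (N : ℝ) * m * H ^ (ε / 3) := by gcongr
      _ ≤ H := fact1
  have hmH : (m : ℝ) ≤ H := auxA_ONX m N H hN1 hm0.le fact2
  have hNH : (N : ℝ) ≤ H := hNmR.trans hmH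
  have hloh : lo ≤ h := by
    have : (lo : ℝ) ≤ h := by rw [← hHdef]; linarith
    exact_mod_cast this
  have hloh' : lo' ≤ h := by
    have : (lo' : ℝ) ≤ h := by rw [← hHdef]; linarith
    exact_mod_cast this
  -- the scales
  obtain ⟨X, hXdef⟩ : ∃ X : ℕ, X = 28 * h / lo + 1 := ⟨_, rfl⟩
  obtain ⟨Y, hYdef⟩ : ∃ Y : ℕ, Y = 28 * h / lo' + 1 := ⟨_, rfl⟩
  have hX1 : 28 * h ≤ lo * X := by
    rw [hXdef]; exact (Nat.lt_mul_div_succ (28 * h) (by omega)).le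
  have hY1 : 28 * h ≤ lo' * Y := by
    rw [hYdef]; exact (Nat.lt_mul_div_succ (28 * h) (by omega)).le
  have hX2 : lo * X ≤ 29 * h := by
    have := Nat.mul_div_le (28 * h) lo
    rw [hXdef, mul_add, mul_one]; omega
  have hY2 : lo' * Y ≤ 29 * h := by
    have := Nat.mul_div_le (28 * h) lo'
    rw [hYdef, mul_add, mul_one]; omega
  have hX1R : 28 * H ≤ lo * X := by rw [hHdef]; exact_mod_cast hX1
  have hY1R : 28 * H ≤ lo' * Y := by rw [hHdef]; exact_mod_cast hY1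
  have hX2R : (lo : ℝ) * X ≤ 29 * H := by rw [hHdef]; exact_mod_cast hX2
  have hY2R : (lo' : ℝ) * Y ≤ 29 * H := by rw [hHdef]; exact_mod_cast hY2
  have hX0 : (0 : ℝ) ≤ X := Nat.cast_nonneg _
  have hY0 : (0 : ℝ) ≤ Y := Nat.cast_nonneg _
  have hXH : (X : ℝ) ≤ H ^ 2 := auxB_ONX lo X H hlo1 hX0 hX2R h29
  have hYH : (Y : ℝ) ≤ H ^ 2 := auxB_ONX lo' Y H hlo1' hY0 hY2R h29
  have hXZ : H ^ (ε / 3) ≤ X := by
    have h1 : (N : ℝ) * H ^ (ε / 3) ≤ N * X := by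
      calc (N : ℝ) * H ^ (ε / 3) ≤ (N : ℝ) * m * H ^ (ε / 3) := by
            gcongr; exact le_mul_of_one_le_right hN0.le hm1
        _ ≤ H := fact1
        _ ≤ lo * X := by linarith
        _ ≤ N * X := by gcongr
    exact le_of_mul_le_mul_left h1 hN0
  have hYZ : H ^ (ε / 3) ≤ Y := by
    have h1 : (m : ℝ) * H ^ (ε / 3) ≤ m * Y := by
      calc (m : ℝ) * H ^ (ε / 3) ≤ (N : ℝ) * m * H ^ (ε / 3) := by
            gcongr; exact le_mul_of_one_le_left hm0.le hN1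
        _ ≤ H := fact1
        _ ≤ lo' * Y := by linarith
        _ ≤ m * Y := by gcongr
    exact le_of_mul_le_mul_left h1 hm0
  -- (2)
  obtain ⟨Z, hZdef⟩ : ∃ Z : ℝ, Z = min (X : ℝ) Y := ⟨_, rfl⟩
  have hZlow : H ^ (ε / 3) ≤ Z := by rw [hZdef]; exact le_min hXZ hYZ
  have hZX : Z ≤ X := by rw [hZdef]; exact min_le_left _ _
  have hZY : Z ≤ Y := by rw [hZdef]; exact min_le_right _ _
  have hZup : Z ≤ H ^ 2 := hZX.trans hXH
  have hZ1 : 1 ≤ Z := hHe1.trans hZlow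
  have hZp : 0 < Z := by linarith
  obtain ⟨P, t, hP1, hP2, ht1, ht2, hdat⟩ := hZ Z (hZH.trans hZlow)
  have hPlow : H ^ (ε * δ₀ / 6) ≤ P := by
    calc H ^ (ε * δ₀ / 6) = (H ^ (ε / 3)) ^ (δ₀ / 2) := by
          rw [← Real.rpow_mul hH0.le]; congr 1; ring
      _ ≤ Z ^ (δ₀ / 2) := Real.rpow_le_rpow (by positivity) hZlow (by positivity)
      _ ≤ P := hP1
  have hP1' : 1 ≤ P := (Real.one_le_rpow hH1 (by positivity)).trans hPlow
  have hPp : 0 < P := by linarith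
  obtain ⟨p, hpdef⟩ : ∃ p : ℝ, p = P ^ (1 / 10000 : ℝ) := ⟨_, rfl⟩
  have hwp : w ≤ p := by
    calc w = (H ^ (ε * δ₀ / 6)) ^ (1 / 10000 : ℝ) := by
          rw [hwdef, ← Real.rpow_mul hH0.le, he]; congr 1; ring
      _ ≤ P ^ (1 / 10000 : ℝ) := Real.rpow_le_rpow (by positivity) hPlow (by norm_num)
      _ = p := hpdef.symm
  have hp1 : 1 ≤ p := by linarith
  have hp0 : 0 < p := by linarith
  have hpow : ∀ k : ℕ, p ^ k = P ^ ((k : ℝ) / 10000) := by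
    intro k
    rw [hpdef, ← Real.rpow_natCast, ← Real.rpow_mul hPp.le]
    congr 1; ring
  have hpP : p ≤ P := by
    calc p = P ^ (1 / 10000 : ℝ) := hpdef
      _ ≤ P ^ (1 : ℝ) := Real.rpow_le_rpow_of_exponent_le hP1' (by norm_num)
      _ = P := Real.rpow_one P
  have hp2P : p ^ 2 ≤ P := by
    calc p ^ 2 = P ^ (((2 : ℕ) : ℝ) / 10000) := hpow 2
      _ ≤ P ^ (1 : ℝ) := Real.rpow_le_rpow_of_exponent_le hP1' (by norm_num)
      _ = P := Real.rpow_one P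
  have hp6P : p ^ 6 ≤ P := by
    calc p ^ 6 = P ^ (((6 : ℕ) : ℝ) / 10000) := hpow 6
      _ ≤ P ^ (1 : ℝ) := Real.rpow_le_rpow_of_exponent_le hP1' (by norm_num)
      _ = P := Real.rpow_one P
  have hPZ : P ^ 2000 ≤ Z := by
    calc P ^ 2000 ≤ (Z ^ δ₀) ^ 2000 := by gcongr
      _ = Z ^ (δ₀ * 2000) := by
          rw [← Real.rpow_natCast, ← Real.rpow_mul hZp.le]; norm_num
      _ ≤ Z ^ (1 : ℝ) := Real.rpow_le_rpow_of_exponent_le hZ1 (by linarith)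
      _ = Z := Real.rpow_one Z
  have hPH : P ^ 2000 ≤ H ^ (ε / 3) := by
    calc P ^ 2000 ≤ (Z ^ δ₀) ^ 2000 := by gcongr
      _ ≤ ((H ^ 2) ^ δ₀) ^ 2000 := by gcongr
      _ = H ^ (δ₀ * 4000) := by
          rw [← Real.rpow_natCast, ← Real.rpow_natCast H 2, ← Real.rpow_mul hH0.le,
            ← Real.rpow_mul hH0.le]
          congr 1; push_cast; ring
      _ ≤ H ^ (ε / 3) := Real.rpow_le_rpow_of_exponent_le hH1 (by linarith)
  have hPHH : P ^ 51 ≤ H := by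
    calc P ^ 51 ≤ P ^ 2000 := pow_le_pow_right₀ hP1' (by norm_num)
      _ ≤ H ^ (ε / 3) := hPH
      _ ≤ H ^ (1 : ℝ) := Real.rpow_le_rpow_of_exponent_le hH1 (by linarith)
      _ = H := Real.rpow_one H
  have hNmP : (N : ℝ) * m * P ^ 2000 ≤ H := by
    calc (N : ℝ) * m * P ^ 2000 ≤ (N : ℝ) * m * H ^ (ε / 3) := by gcongr
      _ ≤ H := fact1
  have hPbig : 1000 ≤ P := by linarith
  have hPsP : Ps ≤ P := by linarith
  have hPmP : Pm ≤ P := by linarith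
  have hKw : (K : ℝ) ≤ w := by
    calc (K : ℝ) ≤ H ^ (ε * δ₀ / 200000) := hK
      _ ≤ H ^ e := by
          apply Real.rpow_le_rpow_of_exponent_le hH1
          rw [he]
          have : 0 < ε * δ₀ := by positivity
          linarith
      _ = w := hwdef.symm
  have hKr0 : (0 : ℝ) ≤ K := Nat.cast_nonneg _
  have h29K : 29 * (K : ℝ) ≤ P := auxD_ONX K w p P hKw hw1000 hwp hp2P
  have h5K : 5 * (K : ℝ) ≤ P := by linarith
  have hHew : ∀ k : ℕ, (H ^ k) ^ e = w ^ k := by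
    intro k
    rw [hwdef, ← Real.rpow_natCast, ← Real.rpow_natCast, ← Real.rpow_mul hH0.le,
      ← Real.rpow_mul hH0.le]
    congr 1; ring
  -- `Q`
  obtain ⟨Q, hQdef⟩ : ∃ Q : ℕ, Q = ⌊P ^ 50⌋₊ := ⟨_, rfl⟩
  have hQ1 : (Q : ℝ) ≤ P ^ 50 := by
    rw [hQdef]; exact Nat.floor_le (by positivity)
  have hQ2 : P ^ 49 ≤ Q := by
    have h1 : P ^ 50 < Q + 1 := by rw [hQdef]; exact Nat.lt_floor_add_one _
    exact auxC_ONX P Q (by linarith) h1
  have hQ3 : 1 ≤ Q := by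
    have : (1 : ℝ) ≤ Q := (one_le_pow₀ hP1').trans hQ2
    exact_mod_cast this
  -- the facts at one scale
  have sc1 : ∀ W : ℕ, Z ≤ W → (W : ℝ) ≤ H ^ 2 → P ^ 2000 ≤ W ∧ P ≤ (W : ℝ) ^ (1 / 5000 : ℝ) ∧
      Real.log W ≤ w ∧ (W : ℝ) ≤ Z ^ (6 / ε) ∧ (W : ℝ) / (2 * P ^ 200) ≤ ⌊(W : ℝ) / P ^ 200⌋₊ ∧
      ((⌊(W : ℝ) / P ^ 200⌋₊ : ℕ) : ℝ) ≤ W / P ^ 200 := by
    intro W hZW hWH
    have hW1 : (1 : ℝ) ≤ W := hZ1.trans hZW
    refine ⟨hPZ.trans hZW, ?_, ?_, ?_, ?_, Nat.floor_le (by positivity)⟩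
    · calc P ≤ Z ^ δ₀ := hP2
        _ ≤ Z ^ (1 / 5000 : ℝ) := Real.rpow_le_rpow_of_exponent_le hZ1 (by linarith)
        _ ≤ (W : ℝ) ^ (1 / 5000 : ℝ) := Real.rpow_le_rpow hZp.le hZW (by norm_num)
    · have h1 := Real.log_le_log (by linarith) hWH
      rw [Real.log_pow, Nat.cast_ofNat] at h1
      exact h1.trans hlogH
    · calc (W : ℝ) ≤ H ^ 2 := hWH
        _ = (H ^ (ε / 3)) ^ (6 / ε) := by
            rw [← Real.rpow_mul hH0.le, ← Real.rpow_natCast]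
            congr 1
            field_simp
            norm_num
        _ ≤ Z ^ (6 / ε) := Real.rpow_le_rpow (by positivity) hZlow (by positivity)
    · have h1 : (2 : ℝ) ≤ W / P ^ 200 := by
        rw [le_div_iff₀ (by positivity)]
        calc 2 * P ^ 200 ≤ P * P ^ 200 := by gcongr; linarith
          _ = P ^ 201 := by ring
          _ ≤ P ^ 2000 := pow_le_pow_right₀ hP1' (by norm_num)
          _ ≤ W := hPZ.trans hZW
      have h2 := Nat.lt_floor_add_one ((W : ℝ) / P ^ 200)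
      have h3 : (W : ℝ) / (2 * P ^ 200) = W / P ^ 200 / 2 := by
        field_simp
      rw [h3]
      linarith
  have hlogP : w ≤ P := hwp.trans hpP
  have hwP100 : w ≤ P ^ (1 / 100 : ℝ) := by
    have h1 : P ^ (1 / 100 : ℝ) = p ^ 100 := by
      rw [hpow 100]; norm_num
    rw [h1]
    exact hwp.trans (le_self_pow₀ hp1 (by norm_num))
  obtain ⟨T, hTdef⟩ : ∃ T : ℕ, T = ⌊p ^ 10⌋₊ := ⟨_, rfl⟩
  have hTp : (T : ℝ) ≤ p ^ 10 := by
    rw [hTdef]; exact Nat.floor_le (by positivity)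
  have sc2 : ∀ W : ℕ, Z ≤ W → (W : ℝ) ≤ H ^ 2 →
      (∀ n : ℕ, 1 ≤ n → n ≤ W → n.divisors.card ≤ T) ∧
      (∀ n ≤ W, |th n| ≤ p ^ 10) ∧
      (∀ n ≤ W, W ≤ 5 * K * n → |Gr P Q ⌊(W : ℝ) / P ^ 200⌋₊ n| ≤ p ^ 10) ∧
      (∀ y ≤ W, ∀ α, ‖Sx (fun n => th n - Gr P Q ⌊(W : ℝ) / P ^ 200⌋₊ n) y α‖ ≤
        P ^ (-(1 / 3) : ℝ) * W) := by
    intro W hZW hWH
    obtain ⟨c1, c2, c3, c4, c5, c6⟩ := sc1 W hZW hWH
    have hW1 : (1 : ℝ) ≤ W := hZ1.trans hZW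
    have hW1n : 1 ≤ W := by exact_mod_cast hW1
    obtain ⟨d1, d2⟩ := hdat W ⌊(W : ℝ) / P ^ 200⌋₊ hZW c4 c5 c6
    have hw10 : w ^ 3 ≤ p ^ 10 := by
      calc w ^ 3 ≤ p ^ 3 := by gcongr
        _ ≤ p ^ 10 := pow_le_pow_right₀ hp1 (by norm_num)
    refine ⟨?_, ?_, ?_, ?_⟩
    · intro n hn hnW
      rw [hTdef]
      apply Nat.le_floor
      calc (n.divisors.card : ℝ) ≤ CD * (n : ℝ) ^ e := hD n hn
        _ ≤ CD * (H ^ 2) ^ e := by
            gcongr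
            exact le_trans (by exact_mod_cast hnW) hWH
        _ = CD * w ^ 2 := by rw [hHew 2]
        _ ≤ w * w ^ 2 := by gcongr; linarith
        _ = w ^ 3 := by ring
        _ ≤ p ^ 10 := hw10
    · intro n hn
      calc |th n| ≤ Real.log W := th_bd_ONX n W hn hW1n
        _ ≤ w := c3
        _ ≤ p := hwp
        _ ≤ p ^ 10 := le_self_pow₀ hp1 (by norm_num)
    · intro n hn hWn
      have hWn' : (W : ℝ) ≤ 5 * K * n := by exact_mod_cast hWn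
      have hn0 : (0 : ℝ) ≤ n := Nat.cast_nonneg _
      have hn1 : 1 ≤ n := by
        by_contra hcon
        have : n = 0 := by omega
        rw [this] at hWn'
        simp at hWn'
        linarith
      have hnlow : (W : ℝ) / P ≤ n := by
        rw [div_le_iff₀ hPp]
        calc (W : ℝ) ≤ 5 * K * n := hWn'
          _ ≤ P * n := by gcongr
          _ = n * P := mul_comm _ _
      have hnup : n ≤ 2 * W := by omega
      have hAv := (d1 n hnlow hnup).1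
      have hwt : ∀ c ∈ PS P, ‖wt Q c n‖ ≤ w ^ 4 := by
        intro c hc
        have hcr := memPS_ONX hc
        have hprod : (c.r : ℝ) * Q * n ≤ H ^ 3 := by
          calc (c.r : ℝ) * Q * n ≤ P * P ^ 50 * H ^ 2 := by
                gcongr
                exact le_trans (by exact_mod_cast hn) hWH
            _ = P ^ 51 * H ^ 2 := by ring
            _ ≤ H * H ^ 2 := by gcongr
            _ = H ^ 3 := by ring
        calc ‖wt Q c n‖ ≤ CW * ((c.r : ℝ) * Q * n) ^ e := hW Q n c hQ3 hn1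
          _ ≤ CW * (H ^ 3) ^ e := by gcongr
          _ = CW * w ^ 3 := by rw [hHew 3]
          _ ≤ w * w ^ 3 := by gcongr; linarith
          _ = w ^ 4 := by ring
      calc |Gr P Q ⌊(W : ℝ) / P ^ 200⌋₊ n| ≤ 3 * w ^ 4 := Gr_bd_ONX P (w ^ 4) Q _ n hwt
            (by positivity) hAv
        _ ≤ w * w ^ 4 := by gcongr; linarith
        _ = w ^ 5 := by ring
        _ ≤ p ^ 5 := by gcongr
        _ ≤ p ^ 10 := pow_le_pow_right₀ hp1 (by norm_num)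
    · intro y hy α
      rw [mul_comm]
      exact hS P W Q _ hPsP c2 (c3.trans hwP100) hQ1 hQ2 c5 c6 d2 y α hy
  obtain ⟨x1, x2, x3, x4, x5, x6⟩ := sc1 X hZX hXH
  obtain ⟨y1, y2, y3, y4, y5, y6⟩ := sc1 Y hZY hYH
  obtain ⟨xd, xth, xg, xs⟩ := sc2 X hZX hXH
  obtain ⟨yd, yth, yg, ys⟩ := sc2 Y hZY hYH
  obtain ⟨xdat, -⟩ := hdat X _ hZX x4 x5 x6
  obtain ⟨ydat, -⟩ := hdat Y _ hZY y4 y5 y6
  clear sc1 sc2 hdat hZ hS hW
  generalize ⌊(X : ℝ) / P ^ 200⌋₊ = L1 at *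
  generalize ⌊(Y : ℝ) / P ^ 200⌋₊ = L3 at *
  have hh1 : 1 ≤ h := by
    have : (1 : ℝ) ≤ h := by rw [← hHdef]; exact hH1
    exact_mod_cast this
  have hNmh' : N * m ≤ h := by
    have : (N : ℝ) * m ≤ h := by rw [← hHdef]; exact fact2
    exact_mod_cast this
  have ht0' : (p ^ 100)⁻¹ ≤ t := by
    have h1 : P ^ (-(1 / 100) : ℝ) = (p ^ 100)⁻¹ := by
      rw [hpow 100, ← Real.rpow_neg hPp.le]; norm_num
    rw [← h1]; exact ht1
  have ht0 : 0 ≤ t := le_trans (by positivity) ht0'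
  have ht3 : (p ^ 300)⁻¹ ≤ t ^ 3 := by
    calc (p ^ 300)⁻¹ = ((p ^ 100)⁻¹) ^ 3 := by rw [inv_pow, ← pow_mul]
      _ ≤ t ^ 3 := by gcongr
  have hp300 : p ^ 300 ≤ P := by
    calc p ^ 300 = P ^ (((300 : ℕ) : ℝ) / 10000) := hpow 300
      _ ≤ P ^ (1 : ℝ) := Real.rpow_le_rpow_of_exponent_le hP1' (by norm_num)
      _ = P := Real.rpow_one P
  have ht3' : P ^ (-1 : ℝ) ≤ t ^ 3 := by
    rw [Real.rpow_neg_one]
    refine le_trans ?_ ht3
    gcongr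
  have tau : ∀ n : ℕ, 1 ≤ n → (n : ℝ) ≤ H ^ 2 → ((n.divisors.card : ℕ) : ℝ) ^ 2 ≤ P := by
    intro n hn hnH
    have h1 : (n.divisors.card : ℝ) ≤ p ^ 3 := by
      calc (n.divisors.card : ℝ) ≤ CD * (n : ℝ) ^ e := hD n hn
        _ ≤ CD * (H ^ 2) ^ e := by gcongr
        _ = CD * w ^ 2 := by rw [hHew 2]
        _ ≤ w * w ^ 2 := by gcongr; linarith
        _ = w ^ 3 := by ring
        _ ≤ p ^ 3 := by gcongr
    calc ((n.divisors.card : ℕ) : ℝ) ^ 2 ≤ (p ^ 3) ^ 2 := by gcongr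
      _ = p ^ 6 := by ring
      _ ≤ P := hp6P
  -- facts about the coefficients
  have coA : ∀ a : ℕ, lo ≤ a → a ≤ N → 1 ≤ a ∧ (1 : ℝ) ≤ a ∧ (a : ℝ) ≤ N ∧ 28 * h ≤ a * X ∧
      (a : ℝ) * X ≤ P * h := by
    intro a ha1 ha2
    have ha2' : (a : ℝ) ≤ N := by exact_mod_cast ha2
    refine ⟨hlo.trans ha1, by exact_mod_cast hlo.trans ha1, ha2',
      hX1.trans (Nat.mul_le_mul_right _ ha1), ?_⟩
    rw [← hHdef]
    calc (a : ℝ) * X ≤ N * X := by gcongr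
      _ ≤ (lo * K) * X := by gcongr
      _ = K * (lo * X) := by ring
      _ ≤ K * (29 * H) := by gcongr
      _ = (29 * K) * H := by ring
      _ ≤ P * H := by gcongr
  have coC : ∀ c : ℕ, lo' ≤ c → c ≤ m → 1 ≤ c ∧ (1 : ℝ) ≤ c ∧ (c : ℝ) ≤ m ∧ 28 * h ≤ c * Y ∧
      (c : ℝ) * Y ≤ P * h := by
    intro c hc1 hc2
    have hc2' : (c : ℝ) ≤ m := by exact_mod_cast hc2
    refine ⟨hlo'.trans hc1, by exact_mod_cast hlo'.trans hc1, hc2',
      hY1.trans (Nat.mul_le_mul_right _ hc1), ?_⟩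
    rw [← hHdef]
    calc (c : ℝ) * Y ≤ m * Y := by gcongr
      _ ≤ (lo' * K) * Y := by gcongr
      _ = K * (lo' * Y) := by ring
      _ ≤ K * (29 * H) := by gcongr
      _ = (29 * K) * H := by ring
      _ ≤ P * H := by gcongr
  have abcH : ∀ a b c : ℝ, 0 ≤ a → 0 ≤ b → 0 ≤ c → a ≤ N → b ≤ N → c ≤ m → a * b * c ≤ H ^ 2 := by
    intro a b c ha0 hb0 hc0 ha hb hc
    calc a * b * c ≤ N * N * m := by gcongr
      _ = N * (N * m) := by ring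
      _ ≤ H * H := by gcongr
      _ = H ^ 2 := by ring
  have hlx : Real.log X ≤ P := x3.trans hlogP
  have hly : Real.log Y ≤ P := y3.trans hlogP
  obtain ⟨A, hAdef⟩ : ∃ A : ℝ, A = (N : ℝ) ^ 2 * m := ⟨_, rfl⟩
  have hA0 : 0 < A := by rw [hAdef]; positivity
  have low : ∀ a b c : ℝ, 1 ≤ a → 1 ≤ b → 1 ≤ c → a ≤ N → b ≤ N → c ≤ m →
      (p ^ 300)⁻¹ * H ^ 2 / (2 * A) ≤ t ^ 3 * H ^ 2 / (2 * (a * b * c)) := by
    intro a b c ha0 hb0 hc0 ha hb hc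
    have h1 : a * b * c ≤ A := by
      rw [hAdef]
      calc a * b * c ≤ N * N * m := by gcongr
        _ = (N : ℝ) ^ 2 * m := by ring
    have h2 : 0 < a * b * c := by positivity
    gcongr
  have root : √((N : ℝ) * m / H + P ^ (-(1 / 3) : ℝ)) ≤ 2 * (p ^ 1666)⁻¹ := by
    rw [Real.sqrt_le_left (by positivity)]
    have h1 : (N : ℝ) * m / H ≤ (p ^ 3332)⁻¹ := by
      rw [div_le_iff₀ hH0, inv_mul_eq_div, le_div_iff₀ (by positivity)]
      calc (N : ℝ) * m * p ^ 3332 ≤ (N : ℝ) * m * P ^ 2000 := by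
            gcongr
            calc p ^ 3332 = P ^ (((3332 : ℕ) : ℝ) / 10000) := hpow 3332
              _ ≤ P ^ (1 : ℝ) := Real.rpow_le_rpow_of_exponent_le hP1' (by norm_num)
              _ = P := Real.rpow_one P
              _ ≤ P ^ 2000 := le_self_pow₀ hP1' (by norm_num)
        _ ≤ H := hNmP
    have h2 : P ^ (-(1 / 3) : ℝ) ≤ (p ^ 3332)⁻¹ := by
      rw [hpow 3332, ← Real.rpow_neg hPp.le]
      exact Real.rpow_le_rpow_of_exponent_le hP1' (by norm_num)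
    have h3 : (2 * (p ^ 1666)⁻¹) ^ 2 = 4 * (p ^ 3332)⁻¹ := by
      rw [mul_pow, inv_pow, ← pow_mul]; norm_num
    rw [h3]
    have h4 : 0 < (p ^ 3332)⁻¹ := by positivity
    linarith
  have hlgm : 1 + Real.log m ≤ 3 * p := by
    have h1 : Real.log m ≤ Real.log H := Real.log_le_log hm0 hmH
    linarith
  have hlgm0 : 0 ≤ 1 + Real.log m := by
    have := Real.log_nonneg hm1
    linarith
  have hδ0 : 0 ≤ P ^ (-(1 / 3) : ℝ) := by positivity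
  have hp10 : 1 ≤ p ^ 10 := one_le_pow₀ hp1
  -- bad triples of type 1
  have cnt1 : ((((Icc lo N) ×ˢ (Icc lo N) ×ˢ (Icc lo' m)).filter
      (fun v : ℕ × ℕ × ℕ => Bad1 h v.1 v.2.1 v.2.2)).card : ℝ) ≤ A * w⁻¹ / 2 := by
    obtain ⟨D, hDdef⟩ : ∃ D : ℕ → ℕ → ℕ → ℤ,
        D = fun a b c => if h' : Bad1 h a b c then h'.choose else 0 := ⟨_, rfl⟩
    have key := hEr2 th (Gr P Q L1) (Gr P Q L3) X Y h lo N lo' m K T 8 9 8 9 6 28 1 (-1)
      (p ^ 10) (P ^ (-(1 / 3) : ℝ)) D hh1 hlo hloN hNK hlo' hlom hmK hNm hNmh' hX1 hX2 hY1 hY2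
      (by norm_num) (by norm_num) (by norm_num) (by norm_num) (by norm_num) (by norm_num)
      (Or.inl rfl) (Or.inr rfl) hp10 hδ0 xd yd (fun n hn _ => xth n hn) xg
      (fun n hn _ => yth n hn) yg xs ys
    rw [← hHdef] at key
    refine num_ONX _ H A p w K T (1 + Real.log m) _ hH0 hA0 hw1000 hwp hKr0
      (hKw.trans hwp) (Nat.cast_nonneg _) hTp hlgm0 hlgm (Real.sqrt_nonneg _) root ?_
    refine cnt_ONX _ _ lo N lo' m _ _ (Finset.filter_subset _ _) ?_ (fun _ _ _ => abs_nonneg _) key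
    intro v hv
    rw [Finset.mem_filter, Finset.mem_product, Finset.mem_product, Finset.mem_Icc,
      Finset.mem_Icc, Finset.mem_Icc] at hv
    obtain ⟨⟨ha, hb, hc⟩, hbad⟩ := hv
    obtain ⟨a, b, c⟩ := v
    dsimp only at ha hb hc hbad ⊢
    obtain ⟨a1, a2, a3, a4, a5⟩ := coA a ha.1 ha.2
    obtain ⟨b1, b2, b3, b4, b5⟩ := coA b hb.1 hb.2
    obtain ⟨c1, c2, c3, c4, c5⟩ := coC c hc.1 hc.2
    have hDe : D a b c = hbad.choose := by
      rw [hDdef]; exact dif_pos hbad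
    obtain ⟨hd1, hd2, hd3⟩ := hbad.choose_spec
    rw [← hDe] at hd1 hd2 hd3
    have hz : T3 (win th 8 9 h a) (win th 8 9 h b) (win th 6 28 h c) X X Y a (1 * b) (-1 * c)
        (D a b c) = 0 := by
      apply T3zero_ONX
      intro n k l pn pk pl heq e1 e2 e3
      exact hd3 ⟨n, k, l, pn, pk, pl, by linarith, e1, e2, e3⟩
    have hmn := hM P t a b c Q h X X Y L1 L1 L3 (D a b c) hPmP ht3' ht0 ht2 a1 b1 c1 hd2 hd1
      hQ1 hQ2 (tau (a * b * c) (Nat.mul_pos (Nat.mul_pos a1 b1) c1) (by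
        push_cast; exact abcH a b c (by linarith) (by linarith) (by linarith) a3 b3 c3))
      a4 a5 b4 b5 c4 c5 x1 x1 y1
      (by
        rw [← hHdef]
        calc (a : ℝ) * c * P ^ 2000 ≤ N * m * P ^ 2000 := by gcongr
          _ ≤ H := hNmP)
      (by
        rw [← hHdef]
        calc (b : ℝ) * c * P ^ 2000 ≤ N * m * P ^ 2000 := by gcongr
          _ ≤ H := hNmP)
      hlx hlx hly x5 x5 y5 xdat xdat ydat
    rw [← hHdef] at hmn
    have hrw : RW (Gr P Q L1) (Gr P Q L1) (Gr P Q L3) X X Y h a b c (D a b c) =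
        T3 (win (Gr P Q L1) 8 9 h a) (win (Gr P Q L1) 8 9 h b) (win (Gr P Q L3) 6 28 h c) X X Y
          a (1 * b) (-1 * c) (D a b c) := by
      unfold RW
      rw [one_mul, neg_one_mul]
    rw [hz, ← hrw, zero_sub, abs_neg]
    exact ((low a b c a2 b2 c2 a3 b3 c3).trans hmn).trans (le_abs_self _)
  have cnt2 : ((((Icc lo N) ×ˢ (Icc lo N) ×ˢ (Icc lo' m)).filter
      (fun v : ℕ × ℕ × ℕ => Bad2 h v.1 v.2.1 v.2.2)).card : ℝ) ≤ A * w⁻¹ / 2 := by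
    obtain ⟨D, hDdef⟩ : ∃ D : ℕ → ℕ → ℕ → ℤ,
        D = fun a b c => if h' : Bad2 h a b c then h'.choose else 0 := ⟨_, rfl⟩
    have key := hEr2 th (Gr P Q L1) (Gr P Q L3) X Y h lo N lo' m K T 8 9 6 28 8 9 (-1) 1
      (p ^ 10) (P ^ (-(1 / 3) : ℝ)) D hh1 hlo hloN hNK hlo' hlom hmK hNm hNmh' hX1 hX2 hY1 hY2
      (by norm_num) (by norm_num) (by norm_num) (by norm_num) (by norm_num) (by norm_num)
      (Or.inr rfl) (Or.inl rfl) hp10 hδ0 xd yd (fun n hn _ => xth n hn) xg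
      (fun n hn _ => yth n hn) yg xs ys
    rw [← hHdef] at key
    refine num_ONX _ H A p w K T (1 + Real.log m) _ hH0 hA0 hw1000 hwp hKr0
      (hKw.trans hwp) (Nat.cast_nonneg _) hTp hlgm0 hlgm (Real.sqrt_nonneg _) root ?_
    refine cnt_ONX _ _ lo N lo' m _ _ (Finset.filter_subset _ _) ?_ (fun _ _ _ => abs_nonneg _) key
    intro v hv
    rw [Finset.mem_filter, Finset.mem_product, Finset.mem_product, Finset.mem_Icc,
      Finset.mem_Icc, Finset.mem_Icc] at hv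
    obtain ⟨⟨ha, hb, hc⟩, hbad⟩ := hv
    obtain ⟨a, b, c⟩ := v
    dsimp only at ha hb hc hbad ⊢
    obtain ⟨a1, a2, a3, a4, a5⟩ := coA a ha.1 ha.2
    obtain ⟨b1, b2, b3, b4, b5⟩ := coA b hb.1 hb.2
    obtain ⟨c1, c2, c3, c4, c5⟩ := coC c hc.1 hc.2
    have hDe : D a b c = hbad.choose := by
      rw [hDdef]; exact dif_pos hbad
    obtain ⟨hd1, hd2, hd3⟩ := hbad.choose_spec
    rw [← hDe] at hd1 hd2 hd3
    have hz : T3 (win th 8 9 h a) (win th 6 28 h b) (win th 8 9 h c) X X Y a (-1 * b) (1 * c)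
        (D a b c) = 0 := by
      apply T3zero_ONX
      intro n k l pn pk pl heq e1 e2 e3
      exact hd3 ⟨n, k, l, pn, pk, pl, by linarith, e1, e3, e2⟩
    have hmn := hM P t a c b Q h X Y X L1 L3 L1 (D a b c) hPmP ht3' ht0 ht2 a1 c1 b1 hd2 hd1
      hQ1 hQ2 (tau (a * c * b) (Nat.mul_pos (Nat.mul_pos a1 c1) b1) (by
        push_cast
        have h7 := abcH a b c (by linarith) (by linarith) (by linarith) a3 b3 c3
        calc (a : ℝ) * c * b = a * b * c := by ring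
          _ ≤ H ^ 2 := h7))
      a4 a5 c4 c5 b4 b5 x1 y1 x1
      (by
        rw [← hHdef]
        calc (a : ℝ) * b * P ^ 2000 ≤ N * m * P ^ 2000 := by
              gcongr
              exact hb.2.trans hNm
          _ ≤ H := hNmP)
      (by
        rw [← hHdef]
        calc (c : ℝ) * b * P ^ 2000 ≤ m * N * P ^ 2000 := by gcongr
          _ = N * m * P ^ 2000 := by ring
          _ ≤ H := hNmP)
      hlx hly hlx x5 y5 x5 xdat ydat xdat
    rw [← hHdef] at hmn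
    have hrw : RW (Gr P Q L1) (Gr P Q L3) (Gr P Q L1) X Y X h a c b (D a b c) =
        T3 (win (Gr P Q L1) 8 9 h a) (win (Gr P Q L1) 6 28 h b) (win (Gr P Q L3) 8 9 h c) X X Y
          a (-1 * b) (1 * c) (D a b c) := by
      unfold RW
      rw [one_mul, neg_one_mul, T3swap_ONX]
    rw [hz, ← hrw, zero_sub, abs_neg]
    have h8 : t ^ 3 * H ^ 2 / (2 * ((a : ℝ) * c * b)) = t ^ 3 * H ^ 2 / (2 * ((a : ℝ) * b * c)) := by
      congr 2; ring
    rw [h8] at hmn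
    exact ((low a b c a2 b2 c2 a3 b3 c3).trans hmn).trans (le_abs_self _)
  have hfin : A * w⁻¹ ≤ (N : ℝ) ^ 2 * m * H ^ (-(ε * δ₀ / 200000)) := by
    rw [← hAdef]
    have h1 : w⁻¹ = H ^ (-e) := by rw [hwdef, ← Real.rpow_neg hH0.le]
    rw [h1]
    have h2 : -e ≤ -(ε * δ₀ / 200000) := by
      rw [he]
      have : 0 < ε * δ₀ := by positivity
      linarith
    have h3 := Real.rpow_le_rpow_of_exponent_le hH1 h2
    gcongr
  refine le_trans ?_ hfin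
  rw [Finset.filter_or]
  have h9 := Finset.card_union_le
    (((Icc lo N) ×ˢ (Icc lo N) ×ˢ (Icc lo' m)).filter
      (fun v : ℕ × ℕ × ℕ => Bad1 h v.1 v.2.1 v.2.2))
    (((Icc lo N) ×ˢ (Icc lo N) ×ˢ (Icc lo' m)).filter
      (fun v : ℕ × ℕ × ℕ => Bad2 h v.1 v.2.1 v.2.2))
  have h10 : ((((((Icc lo N) ×ˢ (Icc lo N) ×ˢ (Icc lo' m)).filter
      (fun v : ℕ × ℕ × ℕ => Bad1 h v.1 v.2.1 v.2.2)) ∪
    (((Icc lo N) ×ˢ (Icc lo N) ×ˢ (Icc lo' m)).filter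
      (fun v : ℕ × ℕ × ℕ => Bad2 h v.1 v.2.1 v.2.2))).card : ℕ) : ℝ) ≤
      ((((Icc lo N) ×ˢ (Icc lo N) ×ˢ (Icc lo' m)).filter
        (fun v : ℕ × ℕ × ℕ => Bad1 h v.1 v.2.1 v.2.2)).card : ℝ) +
      ((((Icc lo N) ×ˢ (Icc lo N) ×ˢ (Icc lo' m)).filter
        (fun v : ℕ × ℕ × ℕ => Bad2 h v.1 v.2.1 v.2.2)).card : ℝ) := by
    exact_mod_cast h9
  refine h10.trans ?_
  linarith

end Pool.Agent.Helper43.PB
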